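import Pool.Agent.H193R3.Final

/-!
Question 1 of MP_54c2ef_al in full: over every field `K` and for every `n`, every good
endomorphism of the free associative algebra `K⟨x_1, …, x_n⟩` is an automorphism.

Proof in outline. Good endomorphisms are the `I`-adic limits of automorphisms.  The Jacobian matrix
`J` of such a limit (with entries in the enveloping algebra `A ⊗ A^op`) has a constant nonzero
determinant at every pair of tuples of square matrices over a commutative domain.  By a
linearisation argument and Levitzki's theorem over a division ring, a square matrix over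
`A ⊗ A^op` which is invertible at all such points is invertible.  The two-sided inverse of `J`
yields a finite-dimensional space containing the `x_i`, stable under the left translations with
respect to `f_j = φ(x_j)`; the associated pencil is again invertible at all matrix points, so the
translations are jointly nilpotent and the `x_i` are polynomials in the `f_j`.
-/

set_option autoImplicit false

namespace Pool.Agent.Results.MP_54c2ef_al.GoodEndomorphisms

open Pool.Agent.H193R3

universe u

/-- The power `I^m` of the ideal `I = (x_1, …, x_n)` of the free algebra `K⟨x_1, …, x_n⟩`: the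
`K`-span of all monomials of degree at least `m`. -/
def augPow (K : Type u) [Field K] (n m : ℕ) : Submodule K (FreeAlgebra K (Fin n)) :=
  Submodule.span K
    {w | ∃ l : List (Fin n), m ≤ l.length ∧ w = (l.map (FreeAlgebra.ι K)).prod}

/-- `φ` is good: for every `m ≥ 1` there are an endomorphism `ψ` and an automorphism `α` with
`φ = ψ ∘ α` and `ψ(x_i) ≡ x_i` modulo `I^m` for all `i`. -/
def IsGood {K : Type u} [Field K] {n : ℕ}
    (φ : FreeAlgebra K (Fin n) →ₐ[K] FreeAlgebra K (Fin n)) : Prop :=
  ∀ m : ℕ, 1 ≤ m → ∃ (ψ : FreeAlgebra K (Fin n) →ₐ[K] FreeAlgebra K (Fin n))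
    (α : FreeAlgebra K (Fin n) ≃ₐ[K] FreeAlgebra K (Fin n)),
      (∀ a, φ a = ψ (α a)) ∧
      ∀ i, ψ (FreeAlgebra.ι K i) - FreeAlgebra.ι K i ∈ augPow K n m

/-- The same notion for the opposite convention of composition: `φ = α ∘ ψ`. -/
def IsGoodOpp {K : Type u} [Field K] {n : ℕ}
    (φ : FreeAlgebra K (Fin n) →ₐ[K] FreeAlgebra K (Fin n)) : Prop :=
  ∀ m : ℕ, 1 ≤ m → ∃ (ψ : FreeAlgebra K (Fin n) →ₐ[K] FreeAlgebra K (Fin n))
    (α : FreeAlgebra K (Fin n) ≃ₐ[K] FreeAlgebra K (Fin n)),
      (∀ a, φ a = α (ψ a)) ∧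
      ∀ i, ψ (FreeAlgebra.ι K i) - FreeAlgebra.ι K i ∈ augPow K n m

variable {K : Type u} [Field K] {n : ℕ}

lemma ordGE_of_mem {m : ℕ} {a : FreeAlgebra K (Fin n)} (ha : a ∈ augPow K n m) :
    OrdGE m (ee K n a) := by
  induction ha using Submodule.span_induction with
  | mem x h =>
    obtain ⟨l, hl, rfl⟩ := h
    rw [ee_prod]
    exact OrdGE.mon _ hl
  | zero => rw [map_zero]; exact OrdGE.zero
  | add x y _ _ hx hy => rw [map_add]; exact hx.add hy
  | smul c x _ hx => rw [map_smul]; exact hx.smul c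

/-- transport of an automorphism to the monoid algebra -/
noncomputable def tE (α : FreeAlgebra K (Fin n) ≃ₐ[K] FreeAlgebra K (Fin n)) :
    FA K n ≃ₐ[K] FA K n :=
  ((ee K n).symm.trans α).trans (ee K n)

lemma approx_of_good (φ : FreeAlgebra K (Fin n) →ₐ[K] FreeAlgebra K (Fin n)) (h : IsGood φ) :
    Approx' (tp φ) := by
  intro m
  obtain ⟨ψ, α, h1, h2⟩ := h (m + 1) (by omega)
  refine ⟨fun _ => 0, tE α, fun i => ?_⟩
  rw [tr_zero]
  have h3 : ∀ i, OrdGE m ((tp ψ) (gx i) - (AlgHom.id K (FA K n)) (gx i)) := by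
    intro i
    rw [tp_gx, AlgHom.id_apply, ← ee_ι, ← map_sub]
    exact (ordGE_of_mem (h2 i)).mono (by omega)
  have h4 := hom_sub_ordGE (tp ψ) (AlgHom.id K (FA K n)) h3 (tE α (gx i))
  have h5 : (tp ψ) (tE α (gx i)) = tp φ (gx i) := by
    rw [tp_gx, h1, tp_apply]
    show ee K n (ψ ((ee K n).symm (ee K n (α ((ee K n).symm (gx i)))))) = _
    rw [AlgEquiv.symm_apply_apply, ← ee_ι, AlgEquiv.symm_apply_apply]
  rwa [h5, AlgHom.id_apply] at h4

lemma approx_of_goodOpp (φ : FreeAlgebra K (Fin n) →ₐ[K] FreeAlgebra K (Fin n))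
    (h : IsGoodOpp φ) : Approx' (tp φ) := by
  intro m
  obtain ⟨ψ, α, h1, h2⟩ := h (m + 1) (by omega)
  let p : Fin n → K := fun j => eps K n ((tE α).symm (gx j))
  have hp : (eps K n).comp (tr p)
      = (eps K n).comp ((tE α).symm : FA K n →ₐ[K] FA K n) := by
    apply FA_hom_ext
    intro i
    show eps K n (tr p (gx i)) = eps K n ((tE α).symm (gx i))
    rw [tr_gx, map_add, eps_gx, map_smul, map_one, zero_add, smul_eq_mul, mul_one]
  refine ⟨p, tE α, fun i => ?_⟩
  have h3 : OrdGE m ((tp ψ) (gx i) - gx i) := by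
    rw [tp_gx, ← ee_ι, ← map_sub]
    exact (ordGE_of_mem (h2 i)).mono (by omega)
  have h4 : ∀ j, OrdGE 1 (((tr p).comp (tE α : FA K n →ₐ[K] FA K n)) (gx j)) := by
    intro j
    rw [ordGE_one_iff]
    have h5 := congrArg (fun g : FA K n →ₐ[K] K => g (tE α (gx j))) hp
    simp only [AlgHom.comp_apply] at h5
    have h6 : ((tE α).symm : FA K n →ₐ[K] FA K n) (tE α (gx j)) = gx j :=
      (tE α).symm_apply_apply _
    rw [h6, eps_gx] at h5
    exact h5
  have h7 := h3.map ((tr p).comp (tE α : FA K n →ₐ[K] FA K n)) h4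
  have h8 : ((tr p).comp (tE α : FA K n →ₐ[K] FA K n)) ((tp ψ) (gx i) - gx i)
      = tr p (tp φ (gx i) - tE α (gx i)) := by
    show tr p (tE α ((tp ψ) (gx i) - gx i)) = _
    rw [map_sub (tE α)]
    congr 2
    rw [tp_gx, tp_gx, h1]
    show ee K n (α ((ee K n).symm (ee K n (ψ (FreeAlgebra.ι K i))))) = _
    rw [AlgEquiv.symm_apply_apply]
  rwa [h8] at h7

/-- **Every good endomorphism of a free associative algebra `K⟨x_1, …, x_n⟩` over a field is an
automorphism** (for either order of composition in the definition of good). -/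
theorem result (K : Type u) [Field K] (n : ℕ)
    (φ : FreeAlgebra K (Fin n) →ₐ[K] FreeAlgebra K (Fin n)) (hφ : IsGood φ ∨ IsGoodOpp φ) :
    Function.Bijective φ := by
  apply bij_of_tp
  apply bij_of_approx'
  rcases hφ with h | h
  · exact approx_of_good φ h
  · exact approx_of_goodOpp φ h

end Pool.Agent.Results.MP_54c2ef_al.GoodEndomorphisms
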